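import Pool.Agent.Run7.h285.L.All

/-!
# The Möbius and Liouville functions at polynomial values: square root cancellation in ALL short windows at once

Let `f_0` be a polynomial of degree `d ≥ 2` with positive leading coefficient and `f_1, …, f_k` arbitrary integer polynomials, `h` the Möbius or the
Liouville function. For almost all tuples `(a_0, …, a_k)` of constant terms, `|a_l| ≤ X`, and almost all starting points `m` in an arbitrary
interval of length `M` with `M^(d - 1) ≥ X^(1/3) (log X)^B` below `(X (log X)^C)^(1/d)`, the sums of `∏_l h(|f_l(n) + a_l|)` over `m < n ≤ m + H` are of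
the size of the sums of random signs in ALL windows at once: at most `K √H (1 + log H)²` for all `H ≤ (log X)^(2 D)`, and at most
`K √H (1 + log H)² + H / (log X)^D` for all `H`. The constant `K` depends on the proportion `ε` of the exceptional pairs and on the polynomials alone.
Arbitrary weights `ω(n)`, `|ω| ≤ 1`, are allowed (for instance additive or multiplicative characters, or the indicator function of any set).

Method. Second moments over the constant terms and windows: the off-diagonal terms are correlations of the weights at `f(m + i) + a` and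
`f(m + j) + a`, and the shift `f(m + j) - f(m + i)` is a polynomial of degree `d - 1 ≥ 1` in `m`; they are small for almost all `m` by the
law of the project MKM (Moebius in almost all short intervals with all additive characters, helper794 and team) and the circle method
over a thin family of shifts. So the values behave like orthogonal random variables and the inequality of Rademacher and Menshov bounds
the maximum over all windows. Team: helper285 (statements, products, assembly), helper216 (correlations, second moment, Rademacher-Menshov),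
helper811 (all windows), helper376 (model of the correlations), helper794 and the team of the projects MK and MKM.
-/

set_option autoImplicit false

namespace Pool.Agent.Results.MP_4f18df_nt.AllWindowsAtPolynomials

open Finset Filter Topology Polynomial

/-- the box of the tuples `a` of constant terms: `|a l| ≤ X` for all `l` -/
noncomputable def Box (k X : ℕ) : Finset (Fin k → ℤ) := Fintype.piFinset (fun _ => Icc (-(X : ℤ)) X)

/-- the Möbius function -/
noncomputable def mu (n : ℕ) : ℝ := ((ArithmeticFunction.moebius n : ℤ) : ℝ)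

/-- the Liouville function, `0` at `0` -/
noncomputable def lambda (n : ℕ) : ℝ := if n = 0 then 0 else (-1) ^ n.primeFactorsList.length

/-- **The Möbius and Liouville functions at polynomial values in all short windows.** Let `h` be the Möbius function or the Liouville function, `f_0` an
integer polynomial of degree `d ≥ 2` with positive leading coefficient, `f_1, …, f_k` arbitrary integer polynomials (`k ≥ 0`). For every `ε > 0` there is
`K > 0` such that for all `C`, `D` there are `B` and `X₀` with the following property for all `X ≥ X₀`, all `m₀`, `M` with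
`X^(1/3) (log X)^B ≤ M^(d - 1)`, `(m₀ + M)^d ≤ X (log X)^C`, and all weights `ω` with `|ω(n)| ≤ 1`. There is a set of at most `ε X^(k+1) M` pairs
`(a, m)`, `a = (a_0, …, a_k)`, `|a_l| ≤ X`, `m₀ < m ≤ m₀ + M`, such that for every other such pair and ALL `H ≥ 1` with `H^d ≤ X (log X)^C` the sum of
`ω(n) ∏_l h(|f_l(n) + a_l|)` over `m < n ≤ m + H` has absolute value at most `K √H (1 + log H)² + H / (log X)^D`. -/
theorem result : ∀ h : ℕ → ℝ, (h = mu ∨ h = lambda) → ∀ (k : ℕ) (f : Fin (k + 1) → ℤ[X]), 2 ≤ (f 0).natDegree →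
    0 < (f 0).leadingCoeff → ∀ ε : ℝ, 0 < ε → ∃ K : ℝ, 0 < K ∧ ∀ C D : ℕ, ∃ B X₀ : ℕ, ∀ X : ℕ, X₀ ≤ X → ∀ m₀ M : ℕ,
    (X : ℝ) ^ (1 / 3 : ℝ) * Real.log X ^ B ≤ (M : ℝ) ^ ((f 0).natDegree - 1) →
    ((m₀ : ℝ) + M) ^ (f 0).natDegree ≤ X * Real.log X ^ C → ∀ ω : ℕ → ℝ, (∀ n, |ω n| ≤ 1) →
    ∃ Bad ⊆ Box (k + 1) X ×ˢ Ioc m₀ (m₀ + M), (#Bad : ℝ) ≤ ε * ((X : ℝ) ^ (k + 1) * M) ∧
      ∀ a ∈ Box (k + 1) X, ∀ m ∈ Ioc m₀ (m₀ + M), (a, m) ∉ Bad → ∀ H : ℕ, 1 ≤ H →
        (H : ℝ) ^ (f 0).natDegree ≤ X * Real.log X ^ C →
        |∑ n ∈ Ioc m (m + H), ω n * ∏ l, h ((f l).eval (n : ℤ) + a l).natAbs| ≤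
          K * √H * (1 + Real.log H) ^ 2 + H / Real.log X ^ D := by
  rintro h (rfl | rfl) k f h1 h2 ε hε
  · obtain ⟨K, hK, h3⟩ := Run7.h285.L.lm_k mu Pool.Agent.Run7.h794.MK.mob_abs f (Run7.h285.L.lm_mob ⟨h1, h2⟩) ε hε
    refine ⟨K, hK, fun C D => ?_⟩
    obtain ⟨B, X₀, h4⟩ := h3 C D
    exact ⟨B, X₀, fun X hX m₀ M hM hW ω hω => h4 X hX m₀ M hM hW ω hω⟩
  · obtain ⟨K, hK, h3⟩ := Run7.h285.L.lm_k lambda Pool.Agent.Run7.h794.MK.lio_abs f (Run7.h285.L.lm_lio ⟨h1, h2⟩) ε hε
    refine ⟨K, hK, fun C D => ?_⟩
    obtain ⟨B, X₀, h4⟩ := h3 C D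
    exact ⟨B, X₀, fun X hX m₀ M hM hW ω hω => h4 X hX m₀ M hM hW ω hω⟩

end Pool.Agent.Results.MP_4f18df_nt.AllWindowsAtPolynomials
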