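import Pool.Agent.Run7.h504.RM22

/-!
# The normal law for sums of the Moebius function over displaced sparse windows

Used from the starting files: the correlations of aperiodic functions with values `1` and `-1` at linear forms with short
and long parameters (`MP_4a7640_nt.AperiodicClusters`, part (1)), the inequality of van der Corput (`H469R2.NK.Vdc`), the
bilinear estimate for families of shifts (`TH823.EL.FamU`, `TH823.PS`), the additive energy of polynomial values
(`H373R2.T7.energy_poly`) and the divergence of the sum of the reciprocals of the primes in a residue class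
(`Helper793.Cube.Main`). The inversion of the characteristic function with uniform error is from helper20 (`Run7/h20/GM`).
-/

set_option autoImplicit false

namespace Pool.Agent.Results.MP_4f18df_nt.DisplacedGaussianLaw

open Finset

/-- Multiplicative functions with values `1` and `-1` (the value at `0` is arbitrary). -/
def IsMultSign (f : ℕ → ℝ) : Prop :=
  (∀ n, f n = 1 ∨ f n = -1) ∧ ∀ m n : ℕ, m.Coprime n → f (m * n) = f m * f n

/-- `f` is a multiplicative function with values `1` and `-1` and `𝔻(f, χ) = ∞` for every Dirichlet character `χ`. -/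
def Aperiodic (f : ℕ → ℝ) : Prop := IsMultSign f ∧
  ∀ (q : ℕ) (χ : DirichletCharacter ℂ q), 1 ≤ q →
    ¬ Summable fun p : Nat.Primes =>
      (1 - (((f p : ℝ) : ℂ) * (starRingEnd ℂ) (χ ((p : ℕ) : ZMod q))).re) / ((p : ℕ) : ℝ)

/-- `g` is the product of an aperiodic function and of the indicator function of the squarefree integers. -/
def AperiodicSquarefree (g : ℕ → ℝ) : Prop :=
  ∃ f : ℕ → ℝ, Aperiodic f ∧ ∀ n, g n = if Squarefree n then f n else 0

/-- The function of Moebius. -/
noncomputable def mu (n : ℕ) : ℝ := ((ArithmeticFunction.moebius n : ℤ) : ℝ)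

/-- The function of Liouville. -/
noncomputable def lam (n : ℕ) : ℝ := (-1 : ℝ) ^ (ArithmeticFunction.cardFactors n)

/-- The cluster of the form `i₀` in the set `E` of forms `a i n + ∑ t, L i t d t`: the forms of `E` whose vector of
coefficients at `n` and at the long parameters `d t`, `t ∈ lg`, is proportional to the one of the form `i₀`. -/
def cluster {k r : ℕ} (a : Fin k → ℤ) (L : Fin k → Fin r → ℤ) (lg : Finset (Fin r))
    (E : Finset (Fin k)) (i₀ : Fin k) : Finset (Fin k) :=
  E.filter fun i => ∀ t ∈ lg, a i * L i₀ t = a i₀ * L i t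

/-- One of the clusters of `E` has an odd number of forms, or it contains a form which is not a combination of the other
ones: there is a direction `(w, v)` in which it varies and the other ones do not. -/
def Good {k r : ℕ} (a : Fin k → ℤ) (L : Fin k → Fin r → ℤ) (lg : Finset (Fin r))
    (E : Finset (Fin k)) : Prop :=
  ∃ i₀ ∈ E, Odd (cluster a L lg E i₀).card ∨
    ∃ i₁ ∈ cluster a L lg E i₀, ∃ (w : ℤ) (v : Fin r → ℤ),
      a i₁ * w + ∑ t, L i₁ t * v t ≠ 0 ∧
      ∀ i ∈ cluster a L lg E i₀, i ≠ i₁ → a i * w + ∑ t, L i t * v t = 0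

/-- The window `z + ∑ j, L t j d j`, `t < m`, is independent: all its nonempty subsets are good. -/
def IndependentWindow {m r : ℕ} (lg : Finset (Fin r)) (L : Fin m → Fin r → ℕ) : Prop :=
  ∀ E : Finset (Fin m), E.Nonempty → Good (fun _ => 1) (fun t j => (L t j : ℤ)) lg E

/-- The window `z + d t`, `t < m`. -/
def unitWindow {m : ℕ} (t j : Fin m) : ℕ := if t = j then 1 else 0

/-- The additive energy of order `p` of the family `a 1, ..., a x`: the number of the solutions of
`a (u 1) + ... + a (u p) = a (v 1) + ... + a (v p)`. -/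
def energy (p x : ℕ) (a : ℕ → ℤ) : ℕ :=
  (((Fintype.piFinset fun _ : Fin p => Icc 1 x) ×ˢ (Fintype.piFinset fun _ : Fin p => Icc 1 x)).filter
    (fun q => ∑ i, a (q.1 i) = ∑ i, a (q.2 i))).card

/-- The integers `a 1, ..., a x` are at most `B N` in absolute value, and their additive energy of some order `p ≤ h`
is at most `C x ^ (2 p) / N`. -/
def Spread (h B : ℕ) (C : ℝ) (N x : ℕ) (a : ℕ → ℤ) : Prop :=
  (∀ m ∈ Icc 1 x, |a m| ≤ B * N) ∧ ∃ p : ℕ, 1 ≤ p ∧ p ≤ h ∧ (energy p x a : ℝ) * N ≤ C * (x : ℝ) ^ (2 * p)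

open Classical in
/-- The number of the vectors `v` with `1 ≤ v i ≤ x i` for all `i` which have the property `E`. -/
noncomputable def num {k : ℕ} (x : Fin k → ℕ) (E : (Fin k → ℕ) → Prop) : ℝ :=
  (((Fintype.piFinset fun i => Icc 1 (x i)).filter E).card : ℝ)

open Classical in
/-- The number of the vectors `d` of integers with `1 ≤ d j ≤ D j` for all `j` which have the property `E`. -/
noncomputable def numBox {r : ℕ} (D : Fin r → ℕ) (E : (Fin r → ℤ) → Prop) : ℝ :=
  (((Fintype.piFinset fun j => Icc (1 : ℤ) (D j)).filter E).card : ℝ)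

open Classical in
/-- The number of the integers `n` with `Y < n ≤ X` which have the property `E`. -/
noncomputable def freq (Y X : ℕ) (E : ℕ → Prop) : ℝ := (((Ioc Y X).filter E).card : ℝ)

/-- The value of `g` at `z + ∑ j, L t j d j`, for a positive integer `z` and nonnegative integers `d j`. -/
noncomputable def value {m r : ℕ} (g : ℕ → ℝ) (L : Fin m → Fin r → ℕ) (d : Fin r → ℤ) (t : Fin m) (z : ℤ) : ℝ :=
  g (z.toNat + ∑ j, L t j * (d j).toNat)

/-- The sum of `g` over the window `z + ∑ j, L t j d j`, `t < m`. -/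
noncomputable def S {m r : ℕ} (g : ℕ → ℝ) (L : Fin m → Fin r → ℕ) (d : Fin r → ℤ) (z : ℤ) : ℝ := ∑ t, value g L d t z

open Classical in
/-- The number of the places of the window at which `g` is not zero. -/
noncomputable def Q {m r : ℕ} (g : ℕ → ℝ) (L : Fin m → Fin r → ℕ) (d : Fin r → ℤ) (z : ℤ) : ℕ :=
  (univ.filter (fun t => value g L d t z ≠ 0)).card

/-- The distribution function of the standard normal law. -/
noncomputable def Φ (t : ℝ) : ℝ := (Real.sqrt (2 * Real.pi))⁻¹ * ∫ x in Set.Iic t, Real.exp (-(x ^ 2) / 2)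

open Classical in
/-- The variance: `m / ζ(2)` for `i ∈ Sq`, otherwise `m`. -/
noncomputable def variance {k : ℕ} (m : ℕ) (Sq : Finset (Fin k)) (i : Fin k) : ℝ := if i ∈ Sq then m / (Real.pi ^ 2 / 6) else m

/-- With the constants `c i` and the parameters `d`: among the `n` in every set `A l d` for which the signs of the `g i`,
`i ∉ Ap`, on the windows at `α i n + c i` form any given pattern `σ` and at least `M₀` values of each `g i`, `i ∈ Ap`, on the
window at `α i n + c i` are not zero, the sums of the `g i`, `i ∈ Ap`, over these windows, divided by the square root of the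
number of their values which are not zero, are distributed like independent standard normal variables, up to an error of at
most `ε N`, for all intervals `(Y, X]` in which the places are positive. -/
def SelfNormal (B M₀ : ℕ) (ε : ℝ) (N : ℕ) {m r k W : ℕ} (L : Fin k → Fin m → Fin r → ℕ) (g : Fin k → ℕ → ℝ)
    (Ap : Finset (Fin k)) (α : Fin k → ℕ) (A : Fin W → (Fin r → ℤ) → Set ℕ) (c : Fin k → ℤ) (d : Fin r → ℤ) : Prop :=
  ∀ l, ∀ Y X : ℕ, Y ≤ X → (∀ i, α i * X ≤ B * N) → (∀ i, 0 ≤ α i * (Y : ℤ) + c i) →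
    ∀ σ : Fin k → Fin m → ℝ, (∀ i t, σ i t = 1 ∨ σ i t = -1) → ∀ τ : Fin k → ℝ,
    |freq Y X (fun n => n ∈ A l d ∧ (∀ i, i ∉ Ap → ∀ t, value (g i) (L i) d t (α i * (n : ℤ) + c i) = σ i t) ∧
        (∀ i ∈ Ap, M₀ ≤ Q (g i) (L i) d (α i * (n : ℤ) + c i)) ∧
        ∀ i ∈ Ap, S (g i) (L i) d (α i * (n : ℤ) + c i) ≤ τ i * √(Q (g i) (L i) d (α i * (n : ℤ) + c i))) -
      (∏ i ∈ Ap, Φ (τ i)) * freq Y X (fun n => n ∈ A l d ∧
        (∀ i, i ∉ Ap → ∀ t, value (g i) (L i) d t (α i * (n : ℤ) + c i) = σ i t) ∧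
        (∀ i ∈ Ap, M₀ ≤ Q (g i) (L i) d (α i * (n : ℤ) + c i)))| ≤ ε * N

/-- With the constants `c i` and the parameters `d`: among the `n` in every set `A l d` for which the signs of the `g i`,
`i ∉ Ap`, on the windows at `α i n + c i` form any given pattern `σ`, the sums of the `g i`, `i ∈ Ap`, over the windows at
`α i n + c i`, divided by the square root of the variance, are distributed like independent standard normal variables, up to
an error of at most `ε N`, for all intervals `(Y, X]` in which the places are positive. -/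
def Normal (B : ℕ) (ε : ℝ) (N : ℕ) {m k W : ℕ} (g : Fin k → ℕ → ℝ) (Ap Sq : Finset (Fin k)) (α : Fin k → ℕ)
    (A : Fin W → (Fin m → ℤ) → Set ℕ) (c : Fin k → ℤ) (d : Fin m → ℤ) : Prop :=
  ∀ l, ∀ Y X : ℕ, Y ≤ X → (∀ i, α i * X ≤ B * N) → (∀ i, 0 ≤ α i * (Y : ℤ) + c i) →
    ∀ σ : Fin k → Fin m → ℝ, (∀ i t, σ i t = 1 ∨ σ i t = -1) → ∀ τ : Fin k → ℝ,
    |freq Y X (fun n => n ∈ A l d ∧ (∀ i, i ∉ Ap → ∀ t, value (g i) unitWindow d t (α i * (n : ℤ) + c i) = σ i t) ∧
        ∀ i ∈ Ap, S (g i) unitWindow d (α i * (n : ℤ) + c i) ≤ τ i * √(variance m Sq i)) -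
      (∏ i ∈ Ap, Φ (τ i)) * freq Y X (fun n => n ∈ A l d ∧
        (∀ i, i ∉ Ap → ∀ t, value (g i) unitWindow d t (α i * (n : ℤ) + c i) = σ i t))| ≤ ε * N

/-- The functions `g i` have values `1` and `-1` for `i ∉ Ap`. For `i ∈ Ap` they are aperiodic, or, if `i ∈ Sq`, aperiodic up
to the indicator function of the squarefree integers. -/
def Ok {k : ℕ} (g : Fin k → ℕ → ℝ) (Ap Sq : Finset (Fin k)) : Prop :=
  (∀ i, i ∉ Ap → ∀ n, g i n = 1 ∨ g i n = -1) ∧ ∀ i ∈ Ap, (i ∉ Sq → Aperiodic (g i)) ∧ (i ∈ Sq → AperiodicSquarefree (g i))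

lemma reduce {k : ℕ} {g : Fin k → ℕ → ℝ} {Ap Sq : Finset (Fin k)} (h : Ok g Ap Sq) :
    ∃ f : Fin k → ℕ → ℝ, (∀ i n, f i n = 1 ∨ f i n = -1) ∧ (∀ i ∈ Ap, Aperiodic (f i)) ∧
      (∀ i ∈ Ap, ∀ y, g i y = f i y * Pool.Agent.Run7.h504.RM.mk (i ∈ Sq) y) ∧ ∀ i, i ∉ Ap → f i = g i := by
  classical
  have h1 : ∀ i, ∃ f : ℕ → ℝ, (∀ n, f n = 1 ∨ f n = -1) ∧ (i ∈ Ap → Aperiodic f) ∧
      (i ∈ Ap → ∀ y, g i y = f y * Pool.Agent.Run7.h504.RM.mk (i ∈ Sq) y) ∧ (i ∉ Ap → f = g i) := by
    intro i
    by_cases hi : i ∈ Ap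
    · by_cases hs : i ∈ Sq
      · obtain ⟨f, hf, hfg⟩ := (h.2 i hi).2 hs
        refine ⟨f, hf.1.1, fun _ => hf, fun _ y => ?_, fun hn => absurd hi hn⟩
        rw [hfg y]
        unfold Pool.Agent.Run7.h504.RM.mk
        by_cases hy : Squarefree y
        · rw [if_pos hy, if_pos (fun _ => hy), mul_one]
        · rw [if_neg hy, if_neg (fun hh => hy (hh hs)), mul_zero]
      · have hf := (h.2 i hi).1 hs
        refine ⟨g i, hf.1.1, fun _ => hf, fun _ y => ?_, fun _ => rfl⟩
        unfold Pool.Agent.Run7.h504.RM.mk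
        rw [if_pos (fun hh => absurd hh hs), mul_one]
    · exact ⟨g i, h.1 i hi, fun hh => absurd hh hi, fun hh => absurd hh hi, fun _ => rfl⟩
  choose f h2 h3 h4 h5 using h1
  exact ⟨f, h2, fun i hi => h3 i hi, fun i hi => h4 i hi, h5⟩

/-- Let `B`, `k` and `ε > 0` be fixed. There are `M₀` and `m₀` such that the following holds.

(1) Let `m`, `r`, `R`, `h`, `C`, `W` and a set `Ap` of indices `i < k` be given. Let `g 1, ..., g k` be functions: for `i ∈ Ap`
the function of Moebius or of Liouville, or any other aperiodic function with values `1` and `-1`, possibly times the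
indicator function of the squarefree integers; for the other `i` ARBITRARY functions with values `1` and `-1`. Let the
windows `z + ∑ j, L i t j d j`, `t < m`, be independent for `i ∈ Ap`. Let `N` be large and let the parameters `d` run
through a box `1 ≤ d j ≤ D j` with large `D j ≤ R N`, which may tend to infinity arbitrarily slowly, and `N ≤ R (D j)` for
the long parameters `j ∈ lg`. Let `s i 1, ..., s i (x i)` be families of integers: arbitrary ones for `i ∉ Ap`; for `i ∈ Ap`
the members are at most `B N` in absolute value and the additive energy of some order `p ≤ h` is at most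
`C x ^ (2 p) / N`, where `x` is the length. Let all `α i ≥ 1` and let `A l d` be arbitrary sets of natural numbers. For all
the vectors `v` with `1 ≤ v i ≤ x i` up to a proportion of `ε` of them, for all the parameters `d` in the box up to a
proportion of `ε` of them: the self-normalised sums of the `g i`, `i ∈ Ap`, over the windows at the places
`α i n + s i (v i)` have the standard normal law, are independent of each other, of the values of the other functions and of
the sets `A l d`, in the sense of `SelfNormal`.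

(2) For the windows `z + d t`, `t < m`, with `m ≥ m₀`, the same holds for the sums divided by `√(m / ζ(2))`, respectively by
`√m` for functions with values `1` and `-1` only, in the sense of `Normal`: for example the sums of `μ` over `m` random
elements of the interval `(z, z + H]`, `z = α n + s (v)`, where `H` tends to infinity arbitrarily slowly with `N`.

(3) Independent windows: `z + d t` and `z, z + d 0, ..., z + d (r - 1)` with short parameters; arithmetic progressions
`z + t d`, `t < m`, with a long difference `d`. The functions of Liouville and Moebius are allowed. The condition on the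
families holds, for some `h`, `B` and `C`, for the values at `1, ..., x` of every nonconstant polynomial with integer
coefficients and a positive leading coefficient, whenever `x` to the power of the degree has the order of magnitude of
`N`. -/
theorem result (B k : ℕ) (ε : ℝ) (hε : 0 < ε) : ∃ M₀ m₀ : ℕ,
    (∀ (h W m r R : ℕ) (C : ℝ) (lg : Finset (Fin r)) (L : Fin k → Fin m → Fin r → ℕ) (g : Fin k → ℕ → ℝ)
      (Ap Sq : Finset (Fin k)), Ok g Ap Sq → (∀ i ∈ Ap, IndependentWindow lg (L i)) →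
      ∃ N₀ : ℕ, ∀ (N : ℕ) (D : Fin r → ℕ), N₀ ≤ N → (∀ j, N₀ ≤ D j) → (∀ j, D j ≤ R * N) → (∀ j ∈ lg, N ≤ R * D j) →
        ∀ (x : Fin k → ℕ) (s : Fin k → ℕ → ℤ), (∀ i ∈ Ap, Spread h B C N (x i) (s i)) →
        ∀ α : Fin k → ℕ, (∀ i, 1 ≤ α i) → ∀ A : Fin W → (Fin r → ℤ) → Set ℕ,
        num x (fun v => ε * ∏ j, (D j : ℝ) <
          numBox D (fun d => ¬ SelfNormal B M₀ ε N L g Ap α A (fun i => s i (v i)) d)) ≤ ε * ∏ i, (x i : ℝ)) ∧
    (∀ (h W m R : ℕ) (C : ℝ), m₀ ≤ m → ∀ (g : Fin k → ℕ → ℝ) (Ap Sq : Finset (Fin k)), Ok g Ap Sq →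
      ∃ N₀ : ℕ, ∀ (N : ℕ) (D : Fin m → ℕ), N₀ ≤ N → (∀ j, N₀ ≤ D j) → (∀ j, D j ≤ R * N) →
        ∀ (x : Fin k → ℕ) (s : Fin k → ℕ → ℤ), (∀ i ∈ Ap, Spread h B C N (x i) (s i)) →
        ∀ α : Fin k → ℕ, (∀ i, 1 ≤ α i) → ∀ A : Fin W → (Fin m → ℤ) → Set ℕ,
        num x (fun v => ε * ∏ j, (D j : ℝ) <
          numBox D (fun d => ¬ Normal B ε N g Ap Sq α A (fun i => s i (v i)) d)) ≤ ε * ∏ i, (x i : ℝ)) ∧
    (∀ m r : ℕ, IndependentWindow (m := m) ∅ unitWindow ∧
      IndependentWindow (m := r + 1) (∅ : Finset (Fin r)) (fun t j => if t = j.succ then 1 else 0) ∧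
      IndependentWindow (m := m) (univ : Finset (Fin 1)) (fun t _ => (t : ℕ))) ∧
    (Aperiodic lam ∧ AperiodicSquarefree mu) ∧
    (∀ g : Polynomial ℤ, 1 ≤ g.natDegree → 0 < g.leadingCoeff → ∀ D : ℕ, ∃ (h' B' : ℕ) (C' : ℝ), ∀ N x : ℕ,
      N ≤ D * x ^ g.natDegree → x ^ g.natDegree ≤ D * N → Spread h' B' C' N x (fun m => g.eval (m : ℤ))) := by
  classical
  obtain ⟨M₁, hself⟩ := Pool.Agent.Run7.h504.RM.gaussSelf B k ε hε
  obtain ⟨κ₀, htup⟩ := Pool.Agent.Run7.h504.RM.gaussTuple B k ε hε
  refine ⟨M₁, κ₀, ?_, ?_, fun m r => ⟨fun E hE => ?_, fun E hE => ?_, fun E hE => ?_⟩, ⟨?_, ?_⟩, fun g hd hl D => ?_⟩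
  · intro h W m r R C lg L g Ap Sq hg hL
    obtain ⟨f, hf, hfA, hfg, hfn⟩ := reduce hg
    obtain ⟨N₀, h0⟩ := hself m r lg (h + 1) W R (by omega) C L f g hf Ap Sq
      (fun i hi => ⟨(hfA i hi).1, (hfA i hi).2, hL i hi⟩) hfg
    refine ⟨N₀, fun N D hN hD1 hD2 hD3 x s hs α hα A => ?_⟩
    refine le_trans (Pool.Agent.Run7.h504.RM.ct_mono ?_) (h0 N D hN ⟨hD1, hD2, hD3⟩ x s (fun i hi => by
      obtain ⟨h1, p, _, hp2, he⟩ := hs i hi
      exact ⟨h1, Pool.Agent.Run7.h504.RM.energy_order (by omega) he⟩) α hα A)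
    intro v _ hv
    refine lt_of_lt_of_le hv (Pool.Agent.Run7.h504.RM.ct_mono ?_)
    intro d _ hd hcon
    apply hd
    intro l Y X hYX hX hpos σ hσ τ
    have h1 := hcon l Y X hYX hX hpos σ hσ τ
    have e1 : ∀ n : ℕ, (∀ i, i ∉ Ap → ∀ t, Pool.Agent.Run7.h504.RM.pv (f i) (L i) d t (α i * (n : ℤ) + s i (v i)) = σ i t) ↔
        ∀ i, i ∉ Ap → ∀ t, value (g i) (L i) d t (α i * (n : ℤ) + s i (v i)) = σ i t := by
      intro n
      apply forall_congr'
      intro i
      apply forall_congr'
      intro hi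
      rw [hfn i hi]
      rfl
    simp only [e1] at h1
    exact h1
  · intro h W m R C hm g Ap Sq hg
    obtain ⟨f, hf, hfA, hfg, hfn⟩ := reduce hg
    obtain ⟨N₀, h0⟩ := htup m hm (h + 1) W R (by omega) C f g hf Ap Sq
      (fun i hi => ⟨(hfA i hi).1, (hfA i hi).2⟩) hfg
    refine ⟨N₀, fun N D hN hD1 hD2 x s hs α hα A => ?_⟩
    refine le_trans (Pool.Agent.Run7.h504.RM.ct_mono ?_) (h0 N D hN hD1 hD2 x s (fun i hi => by
      obtain ⟨h1, p, _, hp2, he⟩ := hs i hi
      exact ⟨h1, Pool.Agent.Run7.h504.RM.energy_order (by omega) he⟩) α hα A)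
    intro v _ hv
    refine lt_of_lt_of_le hv (Pool.Agent.Run7.h504.RM.ct_mono ?_)
    intro d _ hd hcon
    apply hd
    intro l Y X hYX hX hpos σ hσ τ
    have h1 := hcon l Y X hYX hX hpos σ hσ τ
    have e1 : ∀ n : ℕ, (∀ i, i ∉ Ap → ∀ t, Pool.Agent.Run7.h504.RM.pv (f i) Pool.Agent.Run7.h504.RM.eL d t
          (α i * (n : ℤ) + s i (v i)) = σ i t) ↔
        ∀ i, i ∉ Ap → ∀ t, value (g i) unitWindow d t (α i * (n : ℤ) + s i (v i)) = σ i t := by
      intro n
      apply forall_congr'
      intro i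
      apply forall_congr'
      intro hi
      rw [hfn i hi]
      rfl
    simp only [e1] at h1
    exact h1
  · exact Pool.Agent.Run7.h504.RM.good_units E hE
  · exact Pool.Agent.Run7.h504.RM.good_tuple r E hE
  · exact Pool.Agent.Run7.h504.RM.good_progression m E hE
  · exact Pool.Agent.Run7.h504.RM.lam_sign
  · refine ⟨lam, Pool.Agent.Run7.h504.RM.lam_sign, fun n => ?_⟩
    unfold mu lam
    split_ifs with hs
    · rw [ArithmeticFunction.moebius_apply_of_squarefree hs]
      push_cast
      rfl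
    · rw [ArithmeticFunction.moebius_eq_zero_of_not_squarefree hs]
      simp
  · obtain ⟨h', hh, B', C', _, h1⟩ := Pool.Agent.Run7.h504.RM.poly_energy g hd hl D
    exact ⟨h', B', C', fun N x hx1 hx2 => ⟨(h1 N x hx1 hx2).1, h', hh, le_rfl, (h1 N x hx1 hx2).2⟩⟩

end Pool.Agent.Results.MP_4f18df_nt.DisplacedGaussianLaw
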