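import Mathlib
import Pool.Agent.Run7.h20.GM.Fin

/-!
# Gaussian law for sums of the Moebius function over sparse windows inside of short intervals

The interval `|n - x| < H / 2` of the question is replaced by the window `n + {s_1, ..., s_m}`, where `s_1, ..., s_m` are members of a
set `S` inside of an interval of a length `H ≥ N ^ (1/3) log ^ C N`, and `m ≤ log ^ A N`. The set `S` is ARBITRARY up to the condition that its
additive energy of some order `r` is nearly minimal (for instance all the integers of the interval, any subset of density at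
least `1 / log ^ A N` of it, the squares or the primes in it, sets with only `H ^ (1 / r)` members up to logarithms). For all but
few of the vectors `(s_1, ..., s_m)` of members of `S` the sum of `μ(n + s_i)`, `n ≤ N`, is Gaussian: normalised by the square root of the number
of the squarefree `n + s_i` for all `S`, and normalised by `√(m / ζ(2))` as in the question, if `S` is equidistributed modulo small
squares.

The values of the Moebius function with additive characters in almost all intervals of length `N ^ (1/3) log ^ C N`: project MKM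
(`Run7/h794`), the covering lemma for laws of small energy (`Run7/h20/MK`), the moment method (`Run7/h20/GM`), Lévy's continuity
theorem (Mathlib).
-/

set_option autoImplicit false

namespace Pool.Agent.Results.MP_4f18df_nt.GaussianThinWindows

open Finset

/-- The additive energy of order `r` of `S`: the number of pairs `v, w` of vectors of `r` members of `S` with
`v_1 + ... + v_r = w_1 + ... + w_r`. -/
def energy (r : ℕ) (S : Finset ℕ) : ℕ :=
  (((Fintype.piFinset fun _ : Fin r => S) ×ˢ (Fintype.piFinset fun _ : Fin r => S)).filter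
    (fun q => ∑ i, q.1 i = ∑ i, q.2 i)).card

/-- `S` is a nonempty set inside of an interval `[a, a + H]` with `N ^ (1/3) log ^ C N ≤ H` and `a + H ≤ B N` whose additive energy of
order `r` is at most `log ^ A N * |S| ^ (2 r) / H`. -/
def Thin (r A B C N : ℕ) (S : Finset ℕ) : Prop := S.Nonempty ∧ ∃ a H : ℕ,
  (N : ℝ) ^ (1 / 3 : ℝ) * Real.log N ^ C ≤ H ∧ a + H ≤ B * N ∧ (∀ s ∈ S, a ≤ s ∧ s ≤ a + H) ∧
    (H : ℝ) * energy r S ≤ Real.log N ^ A * (S.card : ℝ) ^ (2 * r)

/-- For all `d ≤ D` and all `c` the proportion of the `s ∈ S` for which `c + s` is a multiple of `d ^ 2` is `1 / d ^ 2` up to `κ`. -/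
def Equidistributed (D : ℕ) (κ : ℝ) (S : Finset ℕ) : Prop := ∀ d : ℕ, 1 ≤ d → d ≤ D → ∀ c : ℕ,
  |((S.filter (fun s => d ^ 2 ∣ c + s)).card : ℝ) - S.card / (d : ℝ) ^ 2| ≤ κ * S.card

/-- The sum of `μ(n + s_i)`, `i = 1, ..., m`. -/
def M {m : ℕ} (s : Fin m → ℕ) (n : ℕ) : ℤ := ∑ i, ArithmeticFunction.moebius (n + s i)

open Classical in
/-- The number of the `i ≤ m` for which `n + s_i` is squarefree. -/
noncomputable def Q {m : ℕ} (s : Fin m → ℕ) (n : ℕ) : ℕ := (univ.filter (fun i => Squarefree (n + s i))).card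

/-- The distribution function of the standard normal law. -/
noncomputable def Φ (t : ℝ) : ℝ := (Real.sqrt (2 * Real.pi))⁻¹ * ∫ x in Set.Iic t, Real.exp (-(x ^ 2) / 2)

open Classical in
/-- The number of the natural numbers `1 ≤ n ≤ N` with the property `F`. -/
noncomputable def num (N : ℕ) (F : ℕ → Prop) : ℝ := (((Icc 1 N).filter F).card : ℝ)

lemma num_eq (N : ℕ) (F G : ℕ → Prop) [DecidablePred G] (h : ∀ n, 1 ≤ n → (F n ↔ G n)) :
    num N F = (((Icc 1 N).filter G).card : ℝ) := by
  classical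
  unfold num
  have : (Icc 1 N).filter F = (Icc 1 N).filter G := by
    ext n
    simp only [mem_filter, mem_Icc]
    exact and_congr_right fun hn => h n hn.1
  rw [← this]

lemma mobI_eq (n s : ℕ) (hn : 1 ≤ n) :
    Pool.Agent.Run7.h20.GM.mobI ((n : ℤ) + (s : ℤ)) = ((ArithmeticFunction.moebius (n + s) : ℤ) : ℝ) := by
  unfold Pool.Agent.Run7.h20.GM.mobI Pool.Agent.Run7.h27.MK.gI Pool.Agent.Run7.h794.MK.mob
  rw [if_pos (by omega)]
  congr 2

lemma M_eq {m : ℕ} (s : Fin m → ℕ) (n : ℕ) (hn : 1 ≤ n) :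
    ∑ i, Pool.Agent.Run7.h20.GM.av Pool.Agent.Run7.h20.GM.mobI (fun v : ℕ => (v : ℤ)) s n i = (M s n : ℝ) := by
  unfold M Pool.Agent.Run7.h20.GM.av
  push_cast
  exact sum_congr rfl fun i _ => mobI_eq n (s i) hn

lemma Q_eq {m : ℕ} (s : Fin m → ℕ) (n : ℕ) (hn : 1 ≤ n) :
    Pool.Agent.Run7.h20.GM.cnt (Pool.Agent.Run7.h20.GM.av Pool.Agent.Run7.h20.GM.mobI (fun v : ℕ => (v : ℤ)) s n) = Q s n := by
  classical
  unfold Q Pool.Agent.Run7.h20.GM.cnt Pool.Agent.Run7.h20.GM.av
  congr 1
  ext i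
  simp only [mem_filter, mem_univ, true_and]
  rw [mobI_eq n (s i) hn, ← ArithmeticFunction.moebius_ne_zero_iff_squarefree]
  simp

open Classical in
/-- **(1)** For all `r`, `A`, `B`, `V` and all `ε > 0` there are `M₀` and `C` such that for all large `N`, all `Thin` sets `S` and all
`1 ≤ m ≤ log ^ A N` the following holds for all but `|S| ^ m / log ^ V N` of the vectors `s` of `m` members of `S`: among the `n ≤ N` for which at
least `M₀` of the numbers `n + s_i` are squarefree the sum of the `μ(n + s_i)`, divided by the square root of the number of the squarefree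
`n + s_i`, has the standard normal distribution up to `ε`: for all real `t` at once.

**(2)** For all `r`, `A`, `B` and all `ε > 0` there are `M₀`, `D`, `C` and `κ > 0` such that for all large `N`, all `Thin` sets `S` which are
equidistributed modulo the squares of the numbers up to `D` with the error `κ`, and all `M₀ ≤ m ≤ log ^ A N`: for all but `ε |S| ^ m` of the
vectors `s` of `m` members of `S`, for all real `t` the number of the `n ≤ N` with `∑ i, μ(n + s_i) ≤ t √(m / ζ(2))` differs from `Φ(t) N` by at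
most `ε N` (`ζ(2) = π ^ 2 / 6`). -/
theorem result (r A B : ℕ) (ε : ℝ) (hε : 0 < ε) :
    (∀ V : ℕ, ∃ M₀ C N₀ : ℕ, ∀ N : ℕ, N₀ ≤ N → ∀ S : Finset ℕ, Thin r A B C N S →
      ∀ m : ℕ, 1 ≤ m → (m : ℝ) ≤ Real.log N ^ A →
      (((Fintype.piFinset (fun _ : Fin m => S)).filter (fun s => ¬ ∀ t : ℝ,
        |num N (fun n => M₀ ≤ Q s n ∧ (M s n : ℝ) ≤ t * √(Q s n)) - Φ t * num N (fun n => M₀ ≤ Q s n)| ≤
          ε * N)).card : ℝ) ≤ (S.card : ℝ) ^ m / Real.log N ^ V) ∧
    (∃ (M₀ D C N₀ : ℕ) (κ : ℝ), 0 < κ ∧ ∀ N : ℕ, N₀ ≤ N → ∀ S : Finset ℕ, Thin r A B C N S → Equidistributed D κ S →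
      ∀ m : ℕ, M₀ ≤ m → (m : ℝ) ≤ Real.log N ^ A →
      (((Fintype.piFinset (fun _ : Fin m => S)).filter (fun s => ¬ ∀ t : ℝ,
        |num N (fun n => (M s n : ℝ) ≤ t * √(m / (Real.pi ^ 2 / 6))) - Φ t * N| ≤ ε * N)).card : ℝ) ≤
          ε * (S.card : ℝ) ^ m) := by
  refine ⟨fun V => ?_, ?_⟩
  · obtain ⟨M₀, C, N₀, -, h⟩ := Pool.Agent.Run7.h20.GM.gauss_self r A B V ε hε
    refine ⟨M₀, C, N₀, fun N hN S hS m hm1 hm => ?_⟩
    obtain ⟨hne, a, H, h1, h2, h3, h4⟩ := hS
    refine le_trans (le_of_eq ?_) (h N hN S hne a H h1 h2 h3 h4 m hm1 hm)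
    congr 2
    apply filter_congr
    intro s _
    apply not_congr
    apply forall_congr'
    intro t
    have e1 : num N (fun n => M₀ ≤ Q s n ∧ (M s n : ℝ) ≤ t * √(Q s n)) =
        (((Icc 1 N).filter (fun n => M₀ ≤ Pool.Agent.Run7.h20.GM.cnt (Pool.Agent.Run7.h20.GM.av
          Pool.Agent.Run7.h20.GM.mobI (fun v : ℕ => (v : ℤ)) s n) ∧
        ∑ i, Pool.Agent.Run7.h20.GM.av Pool.Agent.Run7.h20.GM.mobI (fun v : ℕ => (v : ℤ)) s n i ≤
          t * √(Pool.Agent.Run7.h20.GM.cnt (Pool.Agent.Run7.h20.GM.av Pool.Agent.Run7.h20.GM.mobI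
            (fun v : ℕ => (v : ℤ)) s n) : ℝ))).card : ℝ) := by
      apply num_eq
      intro n hn1
      rw [Q_eq s n hn1, M_eq s n hn1]
    have e2 : num N (fun n => M₀ ≤ Q s n) =
        (((Icc 1 N).filter (fun n => M₀ ≤ Pool.Agent.Run7.h20.GM.cnt (Pool.Agent.Run7.h20.GM.av
          Pool.Agent.Run7.h20.GM.mobI (fun v : ℕ => (v : ℤ)) s n))).card : ℝ) := by
      apply num_eq
      intro n hn1
      rw [Q_eq s n hn1]
    rw [e1, e2]
    rfl
  · obtain ⟨M₀, D, C, N₀, κ, hκ, h⟩ := Pool.Agent.Run7.h20.GM.gauss_const r A B ε hε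
    refine ⟨M₀, D, C, N₀, κ, hκ, fun N hN S hS hE m hm1 hm => ?_⟩
    obtain ⟨hne, a, H, h1, h2, h3, h4⟩ := hS
    refine le_trans (le_of_eq ?_) (h N hN S hne a H h1 h2 h3 h4 hE m hm1 hm)
    congr 2
    apply filter_congr
    intro s _
    apply not_congr
    apply forall_congr'
    intro t
    have e0 : (m : ℝ) / (Real.pi ^ 2 / 6) = 6 / Real.pi ^ 2 * m := by
      have := Real.pi_pos
      field_simp
    have e1 : num N (fun n => (M s n : ℝ) ≤ t * √(m / (Real.pi ^ 2 / 6))) =
        (((Icc 1 N).filter (fun n => ∑ i, Pool.Agent.Run7.h20.GM.av Pool.Agent.Run7.h20.GM.mobI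
          (fun v : ℕ => (v : ℤ)) s n i ≤ t * √(6 / Real.pi ^ 2 * m : ℝ))).card : ℝ) := by
      rw [e0]
      apply num_eq
      intro n hn1
      rw [M_eq s n hn1]
    rw [e1]
    rfl

end Pool.Agent.Results.MP_4f18df_nt.GaussianThinWindows
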