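import Pool.Agent.Run7.h673.SP.Gau2

/-!
# Gaussian laws for sums of the Moebius function over windows of values of functions of superpolynomial growth

The interval `|n - x| < H / 2` of the question is replaced by the window `n + c + {⌊f (k 1)⌋, …, ⌊f (k m)⌋}`, where
`f t = exp (φ (log t))` grows faster than all polynomials, for instance `φ y = γ y ^ β` with `1 < β < 3 / 2`, and
`y < k i ≤ x`. For almost all the vectors `k` the sum of `μ` over the window is Gaussian for `n ≤ N`: with the normalisation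
`√(m / ζ(2))` of the question, and also if it is normalised by the square root of the number of the squarefree members of the
window. The members of the windows belong to a set of `N ^ o(1)` integers, the length of the windows may be as small as
`N ^ (1/3) log ^ C N`, and the number `m` of the members may be any number from a constant to `log ^ A N`.

From Mathlib: `ContDiffAt ℝ ⊤`: infinitely differentiable at a point; `iteratedDeriv m f`: the derivative of order `m`;
`⌊y⌋₊`: the integer part of `y ≥ 0`; `ArithmeticFunction.moebius`: the Moebius function.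

Method: the exponential sums over the integer parts of `exp (φ (log k))`, `y < k ≤ x`, are small at all frequencies with a
distance of at least `log ^ A / exp (φ (log y))` from the integers (Vinogradov's method of bilinear exponential sums with
the mean value theorem in the form of a starting file; files `Pool.Agent.Run7.h673.SP`), which gives the correlations of `μ`
with arbitrary bounded functions by project MKM of this run (helper794 and others: the Moebius function twisted by additive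
characters in almost all intervals of length `N ^ (1/3) log ^ C N`), and the distribution of the values modulo fixed
integers. The passage from the correlations to the Gaussian law is from files of helper20 (`Pool.Agent.Run7.h20.GM`).
-/

set_option autoImplicit false

namespace Pool.Agent.Results.MP_4f18df_nt.SuperpolynomialGaussian

open Finset

/-- The conditions on `φ` for the growth of `f t = exp (φ (log t))`: for some `δ > 0`, `K` and `L₀` and all `y > L₀` the
function `φ` is infinitely differentiable at `y`, `φ y > 0`, `(1 + δ) φ y ≤ y φ' y`, `φ y ≤ y ^ (3 / 2 - δ)`, and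
`|φ⁽ᵐ⁾ y| ≤ m! φ y (K / y) ^ m` for all `m ≥ 1`. -/
def Rapid (φ : ℝ → ℝ) : Prop :=
  ∃ δ K L₀ : ℝ, 0 < δ ∧ ∀ y > L₀, ContDiffAt ℝ ((⊤ : ℕ∞) : WithTop ℕ∞) φ y ∧ 0 < φ y ∧
    (1 + δ) * φ y ≤ y * deriv φ y ∧ φ y ≤ y ^ (3 / 2 - δ) ∧
    ∀ m : ℕ, 1 ≤ m → |iteratedDeriv m φ y| ≤ m.factorial * φ y * (K / y) ^ m

/-- `(y, x]` is a range of length at least `x / log ^ a N` in which `f t = exp (φ (log t))` has values between
`N ^ (1/3) log ^ C N` and `N / log ^ C N`: `y < x`, `x ≤ log ^ a N (x - y)`, `N ^ (1/3) log ^ C N ≤ f y` and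
`f x log ^ C N ≤ N`. -/
def Range (φ : ℝ → ℝ) (a C N x y : ℕ) : Prop :=
  y < x ∧ (x : ℝ) ≤ Real.log N ^ a * ((x : ℝ) - y) ∧
    (N : ℝ) ^ (1 / 3 : ℝ) * Real.log N ^ C ≤ Real.exp (φ (Real.log y)) ∧ Real.exp (φ (Real.log x)) * Real.log N ^ C ≤ N

/-- The members `c + κ ⌊f (k i)⌋` of the window. -/
noncomputable def window {m : ℕ} (φ : ℝ → ℝ) (κ c : ℕ) (k : Fin m → ℕ) (i : Fin m) : ℕ :=
  c + κ * ⌊Real.exp (φ (Real.log (k i)))⌋₊

/-- The sum of `μ(n + s_i)`, `i = 1, ..., m`. -/
def M {m : ℕ} (s : Fin m → ℕ) (n : ℕ) : ℤ := ∑ i, ArithmeticFunction.moebius (n + s i)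

open Classical in
/-- The number of the `i ≤ m` for which `n + s_i` is squarefree. -/
noncomputable def Q {m : ℕ} (s : Fin m → ℕ) (n : ℕ) : ℕ := (univ.filter (fun i => Squarefree (n + s i))).card

/-- The distribution function of the standard normal law. -/
noncomputable def Φ (t : ℝ) : ℝ := (Real.sqrt (2 * Real.pi))⁻¹ * ∫ x in Set.Iic t, Real.exp (-(x ^ 2) / 2)

open Classical in
/-- The number of the natural numbers `1 ≤ n ≤ N` with the property `F`. -/
noncomputable def num (N : ℕ) (F : ℕ → Prop) : ℝ := (((Icc 1 N).filter F).card : ℝ)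

open Classical in
/-- The number of the vectors `k` with `y < k i ≤ x` for all `i ≤ m` which have the property `E`. -/
noncomputable def numVec {m : ℕ} (x y : ℕ) (E : (Fin m → ℕ) → Prop) : ℝ :=
  (((Fintype.piFinset fun _ : Fin m => Ioc y x).filter E).card : ℝ)

lemma num_eq (N : ℕ) (F G : ℕ → Prop) [DecidablePred G] (h : ∀ n, 1 ≤ n → (F n ↔ G n)) :
    num N F = (((Icc 1 N).filter G).card : ℝ) := by
  classical
  unfold num
  have : (Icc 1 N).filter F = (Icc 1 N).filter G := by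
    ext n
    simp only [mem_filter, mem_Icc]
    exact and_congr_right fun hn => h n hn.1
  rw [← this]

lemma mobI_eq (n s : ℕ) (hn : 1 ≤ n) :
    Pool.Agent.Run7.h20.GM.mobI ((n : ℤ) + (s : ℤ)) = ((ArithmeticFunction.moebius (n + s) : ℤ) : ℝ) := by
  unfold Pool.Agent.Run7.h20.GM.mobI Pool.Agent.Run7.h27.MK.gI Pool.Agent.Run7.h794.MK.mob
  rw [if_pos (by omega)]
  congr 2

lemma M_eq {m : ℕ} (s : Fin m → ℕ) (n : ℕ) (hn : 1 ≤ n) :
    ∑ i, Pool.Agent.Run7.h20.GM.av Pool.Agent.Run7.h20.GM.mobI (fun v : ℕ => (v : ℤ)) s n i = (M s n : ℝ) := by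
  unfold M Pool.Agent.Run7.h20.GM.av
  push_cast
  exact sum_congr rfl fun i _ => mobI_eq n (s i) hn

lemma Q_eq {m : ℕ} (s : Fin m → ℕ) (n : ℕ) (hn : 1 ≤ n) :
    Pool.Agent.Run7.h20.GM.cnt (Pool.Agent.Run7.h20.GM.av Pool.Agent.Run7.h20.GM.mobI (fun v : ℕ => (v : ℤ)) s n) = Q s n := by
  classical
  unfold Q Pool.Agent.Run7.h20.GM.cnt Pool.Agent.Run7.h20.GM.av
  congr 1
  ext i
  simp only [mem_filter, mem_univ, true_and]
  rw [mobI_eq n (s i) hn, ← ArithmeticFunction.moebius_ne_zero_iff_squarefree]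
  simp

lemma numVec_le {m : ℕ} (x y : ℕ) (E : (Fin m → ℕ) → Prop) (A : Finset (Fin m → ℕ))
    (h : ∀ k ∈ Fintype.piFinset (fun _ : Fin m => Ioc y x), E k → k ∈ A) : numVec x y E ≤ A.card := by
  classical
  unfold numVec
  refine Nat.cast_le.2 (card_le_card fun k hk => ?_)
  rw [mem_filter] at hk
  exact h k hk.1 hk.2

/-- Let `φ` satisfy the conditions `Rapid` and let `a`, `A`, `ε > 0` be fixed.

**(1)** There are `M₀` and `C` such that for all large `N`, all ranges `(y, x]` (`Range`), all `c ≤ N` and all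
`M₀ ≤ m ≤ log ^ A N` the following holds for all but `ε (x - y) ^ m` of the vectors `k` with `y < k i ≤ x`: for all real `t` the
number of the `n ≤ N` for which the sum of `μ` over the window `n + c + ⌊exp (φ (log (k i)))⌋`, `i = 1, ..., m`, is at most
`t √(m / ζ(2))` differs from `Φ(t) N` by at most `ε N` (`ζ(2) = π ^ 2 / 6`).

**(2)** For all `T` and `V` there are `M₀` and `C` such that for all large `N`, all ranges `(y, x]`, all `1 ≤ κ ≤ log ^ T N`, all
`c ≤ N` and all `1 ≤ m ≤ log ^ A N` the following holds for all but `(x - y) ^ m / log ^ V N` of the vectors `k` with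
`y < k i ≤ x`: among the `n ≤ N` for which at least `M₀` members of the window `n + c + κ ⌊exp (φ (log (k i)))⌋`,
`i = 1, ..., m`, are squarefree the sum of `μ` over the window, divided by the square root of the number of its squarefree
members, has the standard normal distribution up to `ε`: for all real `t` at once.

**(3)** For all `η > 0` and `C`, all large `N` and all `X` with `N ^ (1/3 + η) ≤ exp (φ (log X))` and
`exp (φ (log X)) log ^ C N ≤ N` the interval `(⌊X / 2⌋, X]` is a range (`a = 1`).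

**(4)** The functions `φ y = γ y ^ β` with `γ > 0` and `1 < β < 3 / 2` satisfy the conditions `Rapid`. -/
theorem result :
    (∀ φ : ℝ → ℝ, Rapid φ → ∀ (a A : ℕ) (ε : ℝ), 0 < ε →
      (∃ M₀ C N₀ : ℕ, ∀ N : ℕ, N₀ ≤ N → ∀ x y : ℕ, Range φ a C N x y → ∀ c : ℕ, c ≤ N →
        ∀ m : ℕ, M₀ ≤ m → (m : ℝ) ≤ Real.log N ^ A →
        numVec (m := m) x y (fun k => ¬ ∀ t : ℝ,
          |num N (fun n => (M (window φ 1 c k) n : ℝ) ≤ t * √(m / (Real.pi ^ 2 / 6))) - Φ t * N| ≤ ε * N) ≤
            ε * ((x : ℝ) - y) ^ m) ∧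
      (∀ T V : ℕ, ∃ M₀ C N₀ : ℕ, ∀ N : ℕ, N₀ ≤ N → ∀ x y : ℕ, Range φ a C N x y →
        ∀ κ : ℕ, 1 ≤ κ → (κ : ℝ) ≤ Real.log N ^ T → ∀ c : ℕ, c ≤ N → ∀ m : ℕ, 1 ≤ m → (m : ℝ) ≤ Real.log N ^ A →
        numVec (m := m) x y (fun k => ¬ ∀ t : ℝ,
          |num N (fun n => M₀ ≤ Q (window φ κ c k) n ∧ (M (window φ κ c k) n : ℝ) ≤ t * √(Q (window φ κ c k) n)) -
            Φ t * num N (fun n => M₀ ≤ Q (window φ κ c k) n)| ≤ ε * N) ≤ ((x : ℝ) - y) ^ m / Real.log N ^ V)) ∧
    (∀ φ : ℝ → ℝ, Rapid φ → ∀ η : ℝ, 0 < η → ∀ C : ℕ, ∃ N₀ : ℕ, ∀ N : ℕ, N₀ ≤ N → ∀ X : ℕ,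
      (N : ℝ) ^ (1 / 3 + η) ≤ Real.exp (φ (Real.log X)) → Real.exp (φ (Real.log X)) * Real.log N ^ C ≤ N →
      Range φ 1 C N X (X / 2)) ∧
    (∀ γ β : ℝ, 0 < γ → 1 < β → β < 3 / 2 → Rapid (fun y => γ * y ^ β)) := by
  classical
  refine ⟨fun φ hφ a A ε hε => ⟨?_, fun T V => ?_⟩, fun φ hφ η hη C => ?_,
    fun γ β h1 h2 h3 => Pool.Agent.Run7.h673.SP.rapid_pow γ β h1 h2 h3⟩
  · have hφ' : Pool.Agent.Run7.h673.SP.Rapid φ := hφ
    obtain ⟨δ, C', L₀, hf⟩ := hφ'.fast
    obtain ⟨M₀, C, N₀, h⟩ := hf.gau2 a A ε hε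
    refine ⟨M₀, C, N₀, fun N hN x y hr c hc m hm1 hm => ?_⟩
    obtain ⟨r1, r2, r3, r4⟩ := hr
    have h1 := h N hN x y ⟨r1, by rw [Nat.cast_sub r1.le]; exact r2, r3, r4⟩ c hc m hm1 hm (fun s => ∀ t : ℝ,
      |num N (fun n => (M s n : ℝ) ≤ t * √(m / (Real.pi ^ 2 / 6))) - Φ t * N| ≤ ε * N) (fun s => by
        apply forall_congr'
        intro t
        have e0 : (m : ℝ) / (Real.pi ^ 2 / 6) = 6 / Real.pi ^ 2 * m := by
          have := Real.pi_pos
          field_simp
        have e1 : num N (fun n => (M s n : ℝ) ≤ t * √(m / (Real.pi ^ 2 / 6))) =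
            (((Icc 1 N).filter (fun n => ∑ i, Pool.Agent.Run7.h20.GM.av Pool.Agent.Run7.h20.GM.mobI
              (fun v : ℕ => (v : ℤ)) s n i ≤ t * √(6 / Real.pi ^ 2 * m : ℝ))).card : ℝ) := by
          rw [e0]
          apply num_eq
          intro n hn1
          rw [M_eq s n hn1]
        rw [e1]
        exact Iff.rfl)
    rw [Nat.cast_sub r1.le] at h1
    refine le_trans (numVec_le x y _ _ ?_) h1
    intro k hk hE
    rw [mem_filter]
    exact ⟨hk, hE⟩
  · have hφ' : Pool.Agent.Run7.h673.SP.Rapid φ := hφ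
    obtain ⟨δ, C', L₀, hf⟩ := hφ'.fast
    obtain ⟨M₀, C, N₀, -, h⟩ := hf.gau1 a A T V ε hε
    refine ⟨M₀, C, N₀, fun N hN x y hr κ hκ hκT c hc m hm1 hm => ?_⟩
    obtain ⟨r1, r2, r3, r4⟩ := hr
    have h1 := h N hN x y ⟨r1, by rw [Nat.cast_sub r1.le]; exact r2, r3, r4⟩ κ hκ hκT c hc m hm1 hm (fun s => ∀ t : ℝ,
      |num N (fun n => M₀ ≤ Q s n ∧ (M s n : ℝ) ≤ t * √(Q s n)) - Φ t * num N (fun n => M₀ ≤ Q s n)| ≤ ε * N)
      (fun s => by
        apply forall_congr'
        intro t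
        have e1 : num N (fun n => M₀ ≤ Q s n ∧ (M s n : ℝ) ≤ t * √(Q s n)) =
            (((Icc 1 N).filter (fun n => M₀ ≤ Pool.Agent.Run7.h20.GM.cnt (Pool.Agent.Run7.h20.GM.av
              Pool.Agent.Run7.h20.GM.mobI (fun v : ℕ => (v : ℤ)) s n) ∧
            ∑ i, Pool.Agent.Run7.h20.GM.av Pool.Agent.Run7.h20.GM.mobI (fun v : ℕ => (v : ℤ)) s n i ≤
              t * √(Pool.Agent.Run7.h20.GM.cnt (Pool.Agent.Run7.h20.GM.av Pool.Agent.Run7.h20.GM.mobI
                (fun v : ℕ => (v : ℤ)) s n) : ℝ))).card : ℝ) := by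
          apply num_eq
          intro n hn1
          rw [Q_eq s n hn1, M_eq s n hn1]
        have e2 : num N (fun n => M₀ ≤ Q s n) =
            (((Icc 1 N).filter (fun n => M₀ ≤ Pool.Agent.Run7.h20.GM.cnt (Pool.Agent.Run7.h20.GM.av
              Pool.Agent.Run7.h20.GM.mobI (fun v : ℕ => (v : ℤ)) s n))).card : ℝ) := by
          apply num_eq
          intro n hn1
          rw [Q_eq s n hn1]
        rw [e1, e2]
        exact Iff.rfl)
    rw [Nat.cast_sub r1.le] at h1
    refine le_trans (numVec_le x y _ _ ?_) h1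
    intro k hk hE
    rw [mem_filter]
    exact ⟨hk, hE⟩
  · have hφ' : Pool.Agent.Run7.h673.SP.Rapid φ := hφ
    obtain ⟨δ, C', L₀, hf⟩ := hφ'.fast
    obtain ⟨N₀, h0⟩ := hf.half η hη C 1
    obtain ⟨N₃, h3⟩ := Filter.eventually_atTop.1 (Pool.Agent.N384.MQ.ev_log_ge 1)
    refine ⟨N₀ + N₃, fun N hN X h1 h2 => ?_⟩
    have hL := h3 N (by omega)
    obtain ⟨e1, e2, e3, e4⟩ := h0 N (by omega) X h1 (by
      rw [Nat.cast_one, one_mul]
      refine le_trans ?_ h2
      exact le_mul_of_one_le_right (Real.exp_pos _).le (one_le_pow₀ hL))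
    refine ⟨e1, ?_, e3, h2⟩
    rw [Nat.cast_sub e1.le] at e2
    exact e2

end Pool.Agent.Results.MP_4f18df_nt.SuperpolynomialGaussian
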